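import Pool.Agent.Q72.EL.Stm2

/-!
Project EL (helper72): independence of the columns, the theorem in terms of the function field, the
theorem for all translates.
-/

set_option autoImplicit false

namespace Pool.Agent.Q195.EL

open MvPolynomial Filter Topology Metric Pool.Agent.Q72 Pool.Agent.Q72.EL

open Pool.Agent.Y563.SE (Trs)

open Pool.Agent.Q72.MX (act ta eval_ta trs_eq fA fB)

/-- a monomial in the `Y_j` of valuation one is trivial -/
theorem mon_one {n c : ℕ} {E : Type} [Field E] [Algebra ℂ E] (G : Gen n c E) (β : Fin c → ℤ)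
    (h : G.O.valuation (∏ j, G.y (G.i j) ^ β j) = 1) : β = 0 := by
  by_contra hβ
  have hne : ∑ j, (β j : ℝ) * G.lam j ≠ 0 := by
    intro h0
    have h1 := Fintype.linearIndependent_iff.1 G.hlam (fun j => (β j : ℚ)) (by
      rw [← h0]
      refine Finset.sum_congr rfl fun j _ => ?_
      rw [Rat.smul_def]
      push_cast
      rfl)
    apply hβ
    funext j
    have := h1 j
    exact_mod_cast this
  rcases lt_or_gt_of_ne hne with h1 | h1
  · have h2 := G.hmon (fun j => - β j) (by
      have : ∑ j, (((- β j : ℤ)) : ℝ) * G.lam j = - ∑ j, (β j : ℝ) * G.lam j := by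
        rw [← Finset.sum_neg_distrib]
        refine Finset.sum_congr rfl fun j _ => ?_
        push_cast
        ring
      rw [this]
      linarith)
    have h3 : ∏ j, G.y (G.i j) ^ (- β j) = (∏ j, G.y (G.i j) ^ β j)⁻¹ := by
      rw [← Finset.prod_inv_distrib]
      exact Finset.prod_congr rfl fun j _ => zpow_neg _ _
    rw [h3, map_inv₀, h, inv_one] at h2
    exact lt_irrefl _ h2
  · have h2 := G.hmon β h1
    rw [h] at h2
    exact lt_irrefl _ h2

theorem b_eq {n c : ℕ} {E : Type} [Field E] [Algebra ℂ E] (G : Gen n c E) (j k : Fin c) :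
    G.b (G.i j) k = if k = j then (G.N : ℤ) else 0 := by
  have hY : ∀ k, G.y (G.i k) ≠ 0 := fun k => G.hy _
  have h1 := G.hb (G.i j)
  have hp0 : ∏ k, G.y (G.i k) ^ G.b (G.i j) k ≠ 0 :=
    Finset.prod_ne_zero_iff.2 fun k _ => zpow_ne_zero _ (hY k)
  have h2 : G.O.valuation (∏ k, G.y (G.i k) ^
      ((if k = j then (G.N : ℤ) else 0) - G.b (G.i j) k)) = 1 := by
    have e1 : ∏ k, G.y (G.i k) ^ ((if k = j then (G.N : ℤ) else 0) - G.b (G.i j) k) =
        G.y (G.i j) ^ G.N * (∏ k, G.y (G.i k) ^ G.b (G.i j) k)⁻¹ := by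
      rw [← Finset.prod_inv_distrib]
      have e2 : G.y (G.i j) ^ G.N = ∏ k, (if k = j then G.y (G.i k) ^ G.N else 1) := by
        rw [Finset.prod_ite_eq' Finset.univ j, if_pos (Finset.mem_univ j)]
      rw [e2, ← Finset.prod_mul_distrib]
      refine Finset.prod_congr rfl fun k _ => ?_
      rw [zpow_sub₀ (hY k), div_eq_mul_inv]
      by_cases hk : k = j
      · rw [if_pos hk, if_pos hk, zpow_natCast]
      · rw [if_neg hk, if_neg hk, zpow_zero]
    rw [e1, map_mul, map_pow, map_inv₀, h1]
    exact mul_inv_cancel₀ ((Valuation.ne_zero_iff _).2 hp0)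
  have h3 := mon_one G _ h2
  have h4 := congrFun h3 k
  simp only [Pi.zero_apply] at h4
  linarith

theorem col : S_col := by
  intro n c E _ _ G
  have hN : (G.N : ℚ) ≠ 0 := by exact_mod_cast G.hN.ne'
  rw [Fintype.linearIndependent_iff]
  intro g hg j
  have h1 := congrFun hg (G.i j)
  rw [Finset.sum_apply] at h1
  simp only [Pi.smul_apply, smul_eq_mul, Pi.zero_apply, Gen.a, b_eq G j] at h1
  rw [Finset.sum_eq_single j] at h1
  · rw [if_pos rfl] at h1
    push_cast at h1
    rwa [div_self hN, mul_one] at h1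
  · intro k _ hk
    rw [if_neg hk]
    simp
  · intro h
    exact absurd (Finset.mem_univ _) h

theorem exists_lam (c : ℕ) : ∃ lam : Fin c → ℝ, LinearIndependent ℚ lam := by
  let b := Module.Basis.ofVectorSpace ℚ ℝ
  have hinf : Infinite (Module.Basis.ofVectorSpaceIndex ℚ ℝ) := by
    by_contra hfin
    rw [not_infinite_iff_finite] at hfin
    have h1 : Module.rank ℚ ℝ < Cardinal.aleph0 := by
      rw [← b.mk_eq_rank'']
      exact Cardinal.mk_lt_aleph0
    rw [Real.rank_rat_real] at h1
    exact absurd h1 (not_lt.2 Cardinal.aleph0_le_continuum)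
  refine ⟨fun j => b (Infinite.natEmbedding _ (j : ℕ)), ?_⟩
  exact b.linearIndependent.comp (fun j : Fin c => Infinite.natEmbedding _ (j : ℕ))
    (fun i j h => Fin.ext ((Infinite.natEmbedding _).injective h))

theorem ff (h1 : S_ends) (h2 : S_region) (h3 : S_solve) (h4 : S_col) : S_ff := by
  intro n c E _ _ x y i hy hind halg htr hH H hHne γ hγ
  obtain ⟨lam, hlam⟩ := exists_lam c
  obtain ⟨G, e1, e2, e3, e4⟩ := h1 n c E x y i lam hy hind halg hlam
  have hI : G.I = RingHom.ker (aeval x : MvPolynomial (Fin n) ℂ →ₐ[ℂ] E) := by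
    rw [← e1]; rfl
  have hreg : HasRegion G.I G.a G.lam := by
    refine h2 n c G.I G.a G.lam G.I_prime ?_ ?_
    · rw [hI]; exact htr
    · rw [hI]
      exact hH G.a (h4 n c E G) G.lam
  obtain ⟨z, hz1, hz2⟩ := h3 n c E G H (by rw [e1, e2]; exact hHne) hreg γ hγ
  rw [e1, e2] at hz1
  exact ⟨z, hz1, hz2⟩

theorem main (h1 : S_fld) (h2 : S_ff) : S_main := by
  intro n c I V hV hdim hcn hproj hH d hd
  obtain ⟨E, iE, aE, x, y, i, hxy, hpt, hy, hind, halg, htr⟩ := h1 n c I V hV hdim hcn hproj
  have hker : projIdeal V = RingHom.ker (aeval x : MvPolynomial (Fin n) ℂ →ₐ[ℂ] E) := by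
    ext g
    rw [RingHom.mem_ker]
    have e1 : (aeval (Sum.elim x y)) (rename Sum.inl g) = aeval x g := by
      rw [aeval_rename]
      rfl
    have e2 := hxy (rename Sum.inl g)
    rw [e1] at e2
    rw [e2]
    constructor
    · intro hg p hp
      rw [eval_rename]
      exact hg p hp
    · intro hg p hp
      have := hg p hp
      rw [eval_rename] at this
      exact this
  intro H hHne
  obtain ⟨p, hp, hpH⟩ := hHne
  rw [trs_eq] at hp
  obtain ⟨u, hu, rfl⟩ := hp
  have hta : aeval (Sum.elim x y) (ta d H) ≠ 0 := by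
    intro h
    apply hpH
    rw [← eval_ta]
    exact (hxy _).1 h u hu
  obtain ⟨z, hz1, hz2⟩ := h2 n c E x y i hy hind halg htr (by rw [← hker]; exact hH) (ta d H) hta
    (fun l => Complex.exp (d (Sum.inl l)) / d (Sum.inr l))
    (fun l => div_ne_zero (Complex.exp_ne_zero _) (hd l))
  have hmem : (Sum.elim z fun l => Complex.exp (d (Sum.inl l)) / d (Sum.inr l) *
      Complex.exp (z l)) ∈ V := by
    rw [hpt]
    refine ⟨hz1, fun j => ?_⟩
    simp only [Sum.elim_inr]
    exact mul_ne_zero (div_ne_zero (Complex.exp_ne_zero _) (hd j)) (Complex.exp_ne_zero _)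
  have hact : act d (Sum.elim z fun l => Complex.exp (d (Sum.inl l)) / d (Sum.inr l) *
      Complex.exp (z l)) = Sum.elim (fun l => z l + d (Sum.inl l))
        (fun l => Complex.exp (z l + d (Sum.inl l))) := by
    funext s
    rcases s with s | s
    · simp [act, fA, fB]
    · have := hd s
      simp only [act, fA, fB, Sum.elim_inr, add_zero]
      rw [Complex.exp_add]
      field_simp
  refine ⟨fun l => z l + d (Sum.inl l), ?_, ?_⟩
  · rw [trs_eq, ← hact]
    exact ⟨_, hmem, rfl⟩
  · rw [eval_ta, hact] at hz2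
    exact hz2

end Pool.Agent.Q195.EL
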