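import Pool.Agent.Q72.EL.Stm3

/-!
Project EL (helper72), job CUT.  The specialisation is obtained from Zariski's lemma: if `K1` is the
field generated by `ℂ`, the `x_l` and the first `c` of the `y_{i_j}`, then the `K1`-algebra generated by
the `y_l`, `y_l⁻¹` and `H(x, y)⁻¹` has a maximal ideal, and its residue field is finite over `K1`.
-/

set_option autoImplicit false

namespace Pool.Agent.Q195.EL

open MvPolynomial IntermediateField

/-- a nonzero finitely generated algebra over a field has a homomorphism to a finite extension -/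
theorem zar {K E : Type} [Field K] [Field E] [Algebra K E] (S : Set E) (hS : S.Finite) :
    ∃ (E' : Type) (_ : Field E') (_ : Algebra K E') (_ : Algebra.adjoin K S →ₐ[K] E'),
      Algebra.IsAlgebraic K E' := by
  obtain ⟨m, hm⟩ := Ideal.exists_maximal (Algebra.adjoin K S)
  let _ : Field (Algebra.adjoin K S ⧸ m) := Ideal.Quotient.field m
  have h1 : Algebra.FiniteType K (Algebra.adjoin K S) :=
    (Subalgebra.fg_iff_finiteType _).1 ((Subalgebra.fg_def).2 ⟨S, hS, rfl⟩)
  have h2 : Algebra.FiniteType K (Algebra.adjoin K S ⧸ m) :=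
    Algebra.FiniteType.of_surjective (Ideal.Quotient.mkₐ K m) (Ideal.Quotient.mkₐ_surjective K m)
  have h3 : Module.Finite K (Algebra.adjoin K S ⧸ m) :=
    finite_of_finite_type_of_isJacobsonRing K _
  exact ⟨Algebra.adjoin K S ⧸ m, inferInstance, inferInstance, Ideal.Quotient.mkₐ K m,
    Algebra.IsAlgebraic.of_finite K _⟩

/-- independence is invariant under embeddings of fields -/
theorem ind_tr {n c : ℕ} {K E : Type} [Field K] [Field E] [Algebra ℂ K] [Algebra ℂ E]
    (g : K →ₐ[ℂ] E) (x : Fin n → K) (Y : Fin c → K) :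
    AlgebraicIndependent (IntermediateField.adjoin ℂ (Set.range (g ∘ x))) (g ∘ Y) ↔
      AlgebraicIndependent (IntermediateField.adjoin ℂ (Set.range x)) Y := by
  have h1 : (IntermediateField.adjoin ℂ (Set.range x)).map g =
      IntermediateField.adjoin ℂ (Set.range (g ∘ x)) := by
    rw [IntermediateField.adjoin_map, Set.range_comp]
  let e := ((IntermediateField.adjoin ℂ (Set.range x)).equivMap g).trans (equivOfEq h1)
  refine algebraicIndependent_ringHom_iff_of_comp_eq e g g.injective ?_
  ext a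
  rfl

theorem mem_adj {σ : Type} {K E : Type} [Field K] [Field E] [Algebra ℂ K] [Algebra ℂ E]
    (g : K →ₐ[ℂ] E) (v : σ → K) (h : ∀ a : K, a ∈ IntermediateField.adjoin ℂ (Set.range v))
    (a : K) : g a ∈ IntermediateField.adjoin ℂ (Set.range (g ∘ v)) := by
  have h1 : (IntermediateField.adjoin ℂ (Set.range v)).map g =
      IntermediateField.adjoin ℂ (Set.range (g ∘ v)) := by
    rw [IntermediateField.adjoin_map, Set.range_comp]
  rw [← h1]
  exact ⟨a, h a, rfl⟩

theorem alg_tr {σ : Type} {K E : Type} [Field K] [Field E] [Algebra ℂ K] [Algebra ℂ E]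
    [Algebra K E] [IsScalarTower ℂ K E] [Algebra.IsAlgebraic K E]
    (v : σ → K) (h : ∀ a : K, a ∈ IntermediateField.adjoin ℂ (Set.range v)) (b : E) :
    IsAlgebraic (IntermediateField.adjoin ℂ (Set.range (algebraMap K E ∘ v))) b := by
  have h1 := mem_adj (IsScalarTower.toAlgHom ℂ K E) v h
  let f : K →+* IntermediateField.adjoin ℂ (Set.range (algebraMap K E ∘ v)) :=
    (algebraMap K E).codRestrict
      (IntermediateField.adjoin ℂ (Set.range (algebraMap K E ∘ v))) h1
  exact (Algebra.IsAlgebraic.isAlgebraic (R := K) b).ringHom_of_comp_eq f (RingHom.id E)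
    f.injective (by ext a; rfl)

theorem gen_top {σ : Type} {E : Type} [Field E] [Algebra ℂ E] (v : σ → E)
    (w : σ → IntermediateField.adjoin ℂ (Set.range v)) (hw : ∀ s, (w s : E) = v s)
    (a : IntermediateField.adjoin ℂ (Set.range v)) :
    a ∈ IntermediateField.adjoin ℂ (Set.range w) := by
  have h1 : (IntermediateField.adjoin ℂ (Set.range w)).map
      (IntermediateField.adjoin ℂ (Set.range v)).val =
      IntermediateField.adjoin ℂ (Set.range v) := by
    rw [IntermediateField.adjoin_map, ← Set.range_comp]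
    congr 2
    funext s
    exact hw s
  have h2 : (a : E) ∈ (IntermediateField.adjoin ℂ (Set.range w)).map
      (IntermediateField.adjoin ℂ (Set.range v)).val := by
    rw [h1]
    exact a.2
  obtain ⟨b, hb, hba⟩ := h2
  have h3 : b = a := Subtype.ext hba
  exact h3 ▸ hb

theorem cut : Pool.Agent.Q72.EL.S_cut := by
  intro n c c' E _ _ x y i hc hy hind halg H hH
  -- the field `K1`
  let i' : Fin c → Fin n := fun j => i (Fin.castLE hc j)
  let v : Fin c ⊕ Fin n → E := Sum.elim (fun j => y (i' j)) x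
  let K := IntermediateField.adjoin ℂ (Set.range v)
  have hv : ∀ s, v s ∈ K := fun s => IntermediateField.subset_adjoin _ _ ⟨s, rfl⟩
  let w : Fin c ⊕ Fin n → K := fun s => ⟨v s, hv s⟩
  have hw := gen_top v w fun s => rfl
  let S : Set E := Set.range y ∪ Set.range (fun l => (y l)⁻¹) ∪ {(aeval (Sum.elim x y) H)⁻¹}
  have hS : S.Finite :=
    ((Set.finite_range _).union (Set.finite_range _)).union (Set.finite_singleton _)
  obtain ⟨E', iF, iA, ρ, hE'⟩ := zar (K := K) S hS
  let _ : Algebra ℂ E' := ((algebraMap K E').comp (algebraMap ℂ K)).toAlgebra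
  have hst : IsScalarTower ℂ K E' := IsScalarTower.of_algebraMap_eq fun _ => rfl
  let A := Algebra.adjoin K S
  have hyA : ∀ l, y l ∈ A := fun l => Algebra.subset_adjoin (Or.inl (Or.inl ⟨l, rfl⟩))
  have hyA' : ∀ l, (y l)⁻¹ ∈ A := fun l => Algebra.subset_adjoin (Or.inl (Or.inr ⟨l, rfl⟩))
  have hHA : (aeval (Sum.elim x y) H)⁻¹ ∈ A := Algebra.subset_adjoin (Or.inr rfl)
  let xK : Fin n → K := fun l => w (Sum.inr l)
  let YK : Fin c → K := fun j => w (Sum.inl j)
  let xA : Fin n → A := fun l => algebraMap K A (xK l)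
  let yA : Fin n → A := fun l => ⟨y l, hyA l⟩
  let ρC : A →ₐ[ℂ] E' := ρ.restrictScalars ℂ
  have hx' : ∀ l, ρ (xA l) = algebraMap K E' (xK l) := fun l => ρ.commutes _
  have hY' : ∀ j, ρ (yA (i' j)) = algebraMap K E' (YK j) := fun j => by
    have h : yA (i' j) = algebraMap K A (YK j) := Subtype.ext rfl
    rw [h]
    exact ρ.commutes _
  let gE : K →ₐ[ℂ] E := K.val
  let gE' : K →ₐ[ℂ] E' := IsScalarTower.toAlgHom ℂ K E'
  have hxx : (fun l => ρ (xA l)) = gE' ∘ xK := funext hx'
  have hYY : (fun j => ρ (yA (i' j))) = gE' ∘ YK := funext hY'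
  have hvv : Sum.elim (fun j => ρ (yA (i' j))) (fun l => ρ (xA l)) = algebraMap K E' ∘ w := by
    funext s
    rcases s with j | l
    · exact hY' j
    · exact hx' l
  have hall : ∀ f : MvPolynomial (Fin n ⊕ Fin n) ℂ,
      aeval (Sum.elim (fun l => ρ (xA l)) (fun l => ρ (yA l))) f =
        ρC (aeval (Sum.elim xA yA) f) := fun f => by
    have h : Sum.elim (fun l => ρ (xA l)) (fun l => ρ (yA l)) = fun s => ρC (Sum.elim xA yA s) := by
      funext s
      rcases s with l | l <;> rfl
    rw [h, ← MvPolynomial.comp_aeval_apply]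
  have hall2 : ∀ f : MvPolynomial (Fin n ⊕ Fin n) ℂ,
      aeval (Sum.elim x y) f = ((aeval (Sum.elim xA yA) f : A) : E) := fun f => by
    have h : Sum.elim x y = fun s => ((A.val.restrictScalars ℂ) (Sum.elim xA yA s) : E) := by
      funext s
      rcases s with l | l <;> rfl
    rw [h, ← MvPolynomial.comp_aeval_apply]
    rfl
  refine ⟨E', iF, inferInstance, fun l => ρ (xA l), fun l => ρ (yA l), i', ?_, ?_, ?_, ?_, ?_, ?_⟩
  · intro l h
    have h1 : yA l * ⟨(y l)⁻¹, hyA' l⟩ = 1 := Subtype.ext (mul_inv_cancel₀ (hy l))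
    have h2 := congrArg ρ h1
    rw [map_mul, map_one] at h2
    simp only at h
    rw [h, zero_mul] at h2
    exact zero_ne_one h2
  · have h1 : AlgebraicIndependent (IntermediateField.adjoin ℂ (Set.range (gE ∘ xK)))
        (gE ∘ YK) := hind.comp (Fin.castLE hc) (Fin.castLE_injective hc)
    have h2 := (ind_tr gE' xK YK).2 ((ind_tr gE xK YK).1 h1)
    rw [← hxx, ← hYY] at h2
    exact h2
  · intro l
    have h1 := alg_tr (E := E') w hw (ρ (yA l))
    rw [← hvv] at h1
    exact h1
  · intro g
    rw [hxx]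
    have h1 : aeval (gE' ∘ xK) g = gE' (aeval xK g) := (MvPolynomial.comp_aeval_apply (f := xK) gE' g).symm
    have h2 : aeval x g = gE (aeval xK g) := (MvPolynomial.comp_aeval_apply (f := xK) gE g).symm
    rw [h1, h2, map_eq_zero_iff gE' gE'.injective, map_eq_zero_iff gE gE.injective]
  · intro f hf
    rw [hall]
    have h1 : aeval (Sum.elim xA yA) f = 0 := Subtype.ext ((hall2 f).symm.trans hf)
    rw [h1, map_zero]
  · rw [hall]
    intro h
    have h1 : aeval (Sum.elim xA yA) H * ⟨(aeval (Sum.elim x y) H)⁻¹, hHA⟩ = 1 := by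
      refine Subtype.ext ?_
      change ((aeval (Sum.elim xA yA) H : A) : E) * (aeval (Sum.elim x y) H)⁻¹ = 1
      rw [← hall2]
      exact mul_inv_cancel₀ hH
    have h2 := congrArg ρC h1
    rw [map_mul, map_one, h, zero_mul] at h2
    exact zero_ne_one h2

end Pool.Agent.Q195.EL
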